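import Pool.Agent.H16.NV.Stm

set_option autoImplicit false

namespace Pool.Agent.H91.NV

open Pool.Agent.H16.NV

theorem geo_spd_nonneg {m : ℕ} (d : Fin (m + 2) → ℝ) (z : Fin m → ℝ) : 0 ≤ spd d z := by
  unfold spd; exact NNReal.coe_nonneg _

theorem geo_le_spd {m : ℕ} (d : Fin (m + 2) → ℝ) (z : Fin m → ℝ) (a : Fin m)
    (ha : d a.succ.succ < 0) : z a / d a.succ.succ ≤ spd d z := by
  have h := Finset.le_sup (f := fun a : Fin m =>
    (if d a.succ.succ < 0 then z a / d a.succ.succ else 0).toNNReal) (Finset.mem_univ a)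
  have h2 : (((if d a.succ.succ < 0 then z a / d a.succ.succ else 0).toNNReal : NNReal) : ℝ) ≤
      spd d z := by
    unfold spd
    exact_mod_cast h
  refine le_trans ?_ h2
  rw [if_pos ha]
  exact Real.le_coe_toNNReal _

theorem geo_spd_le {m : ℕ} (d : Fin (m + 2) → ℝ) (z : Fin m → ℝ) (M : ℝ) (hM : 0 ≤ M)
    (h : ∀ a : Fin m, d a.succ.succ < 0 → z a / d a.succ.succ ≤ M) : spd d z ≤ M := by
  unfold spd
  have : (Finset.univ.sup fun a : Fin m =>
    (if d a.succ.succ < 0 then z a / d a.succ.succ else 0).toNNReal) ≤ M.toNNReal := by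
    refine Finset.sup_le fun a _ => ?_
    refine Real.toNNReal_le_toNNReal ?_
    split_ifs with ha
    · exact h a ha
    · exact hM
  calc _ ≤ ((M.toNNReal : NNReal) : ℝ) := by exact_mod_cast this
    _ = M := Real.coe_toNNReal M hM

theorem geo_bc0 {m : ℕ} (x : Fin (m + 1) → ℝ) : bc x 0 = 1 - ∑ i, x i := by
  simp [bc]

theorem geo_bc1 {m : ℕ} (x : Fin (m + 1) → ℝ) : bc x 1 = x 0 := by
  have : (1 : Fin (m + 1 + 1)) = (0 : Fin (m + 1)).succ := rfl
  rw [this]; simp [bc]

theorem geo_bcs {m : ℕ} (x : Fin (m + 1) → ℝ) (a : Fin m) : bc x a.succ.succ = x a.succ := by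
  simp [bc]

theorem geo_mem {m : ℕ} (e : Fin (m + 2) → ℝ) (h0 : 0 ≤ e 0) (h1 : 0 ≤ e 1)
    (x : Fin (m + 1) → ℝ) : x ∈ Kb e ↔ spd e (Fin.tail x) * e 0 ≤ bc x 0 ∧
      spd e (Fin.tail x) * e 1 ≤ x 0 ∧
      ∀ a : Fin m, spd e (Fin.tail x) * e a.succ.succ ≤ x a.succ := by
  constructor
  · rintro ⟨M, hM0, hM⟩
    have hle : spd e (Fin.tail x) ≤ M := by
      refine geo_spd_le e _ M hM0 fun a ha => ?_
      rw [div_le_iff_of_neg ha]
      have := hM a.succ.succ
      rw [geo_bcs] at this
      exact this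
    refine ⟨?_, ?_, fun a => ?_⟩
    · exact (mul_le_mul_of_nonneg_right hle h0).trans (hM 0)
    · have := hM 1
      rw [geo_bc1] at this
      exact (mul_le_mul_of_nonneg_right hle h1).trans this
    · rcases lt_or_ge (e a.succ.succ) 0 with ha | ha
      · have := geo_le_spd e (Fin.tail x) a ha
        rw [div_le_iff_of_neg ha] at this
        exact this
      · have := hM a.succ.succ
        rw [geo_bcs] at this
        exact (mul_le_mul_of_nonneg_right hle ha).trans this
  · rintro ⟨k0, k1, k2⟩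
    refine ⟨spd e (Fin.tail x), geo_spd_nonneg _ _, fun a => ?_⟩
    refine Fin.cases ?_ (fun a => ?_) a
    · exact k0
    · refine Fin.cases ?_ (fun a => ?_) a
      · have h := geo_bc1 x
        have e1 : (1 : Fin (m + 1 + 1)) = (0 : Fin (m + 1)).succ := rfl
        rw [e1] at h k1
        rw [h]; exact k1
      · rw [geo_bcs]; exact k2 a

theorem t_GEO : S_GEO := by
  intro m d s h0 h1 h0s h1s
  set d' : Fin (m + 2) → ℝ :=
    Function.update (Function.update d 0 (d 0 - s)) 1 (d 1 + s) with hd'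
  have e01 : (0 : Fin (m + 2)) ≠ 1 := by
    intro h
    have := congrArg Fin.val h
    simp at this
  have hd0 : d' 0 = d 0 - s := by
    rw [hd', Function.update_of_ne e01, Function.update_self]
  have hd1 : d' 1 = d 1 + s := by
    rw [hd', Function.update_self]
  have hda : ∀ a : Fin m, d' a.succ.succ = d a.succ.succ := by
    intro a
    have n1 : (a.succ.succ : Fin (m + 2)) ≠ 1 := by
      intro h
      have := congrArg Fin.val h
      simp at this
    have n0 : (a.succ.succ : Fin (m + 2)) ≠ 0 := Fin.succ_ne_zero _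
    rw [hd', Function.update_of_ne n1, Function.update_of_ne n0]
  have hspd : ∀ z, spd d' z = spd d z := by
    intro z
    unfold spd
    simp only [hda]
  have hinv : ∀ (t : ℝ) (x : Fin (m + 1) → ℝ), cm (spd d) t (cm (spd d) (-t) x) = x := by
    intro t x
    unfold cm
    simp only [Fin.tail_cons, Fin.cons_zero]
    have : x 0 + -t * spd d (Fin.tail x) + t * spd d (Fin.tail x) = x 0 := by ring
    rw [this]
    exact Fin.cons_self_tail x
  have himg : ∀ x, x ∈ cm (spd d) s '' Kb d ↔ cm (spd d) (-s) x ∈ Kb d := by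
    intro x
    constructor
    · rintro ⟨y, hy, rfl⟩
      have := hinv (-s) y
      rw [neg_neg] at this
      rw [this]; exact hy
    · intro h
      exact ⟨_, h, hinv s x⟩
  ext x
  rw [himg, geo_mem d' (by rw [hd0]; exact h0s) (by rw [hd1]; exact h1s), geo_mem d h0 h1]
  have ht : Fin.tail (cm (spd d) (-s) x) = Fin.tail x := by simp [cm]
  have hx0 : cm (spd d) (-s) x 0 = x 0 + -s * spd d (Fin.tail x) := by simp [cm]
  have hxs : ∀ a : Fin m, cm (spd d) (-s) x a.succ = x a.succ := by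
    intro a; simp [cm, Fin.tail]
  have hb : bc (cm (spd d) (-s) x) 0 = bc x 0 + s * spd d (Fin.tail x) := by
    rw [geo_bc0, geo_bc0, Fin.sum_univ_succ, Fin.sum_univ_succ, hx0]
    simp only [hxs]
    ring
  rw [ht, hx0, hb, hspd, hd0, hd1]
  simp only [hda, hxs]
  constructor
  · rintro ⟨k0, k1, k2⟩
    exact ⟨by linarith, by linarith, k2⟩
  · rintro ⟨k0, k1, k2⟩
    exact ⟨by linarith, by linarith, k2⟩

end Pool.Agent.H91.NV
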