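import Pool.Agent.H16.NV.Stm

set_option autoImplicit false

namespace Pool.Agent.H91.NV

open Pool.Agent.H16.NV

/-- linear part of `bc` -/
def perL {n : ℕ} (v : Fin n → ℝ) : Fin (n + 1) → ℝ := Fin.cons (-∑ i, v i) v

theorem per_add {n : ℕ} (v w : Fin n → ℝ) (a : Fin (n + 1)) :
    perL (v + w) a = perL v a + perL w a := by
  refine Fin.cases ?_ (fun a => ?_) a
  · simp [perL, Finset.sum_add_distrib]; ring
  · simp [perL]

theorem per_smul {n : ℕ} (c : ℝ) (v : Fin n → ℝ) (a : Fin (n + 1)) :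
    perL (c • v) a = c * perL v a := by
  refine Fin.cases ?_ (fun a => ?_) a
  · simp [perL, Finset.mul_sum]
  · simp [perL]

theorem per_bc {n : ℕ} (v x : Fin n → ℝ) (a : Fin (n + 1)) :
    bc (v + x) a = perL v a + bc x a := by
  refine Fin.cases ?_ (fun a => ?_) a
  · simp [perL, bc, Finset.sum_add_distrib]; ring
  · simp [perL, bc]

/-- the permutation of the barycentric coordinates as an affine map -/
noncomputable def perA {n : ℕ} (σ : Equiv.Perm (Fin (n + 1))) :
    (Fin n → ℝ) →ᵃ[ℝ] (Fin n → ℝ) where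
  toFun x := fun i => bc x (σ i.succ)
  linear :=
    { toFun := fun v i => perL v (σ i.succ)
      map_add' := by intro v w; ext i; simp [per_add]
      map_smul' := by intro c v; ext i; simp [per_smul] }
  map_vadd' := by
    intro x v
    ext i
    simp [per_bc]

theorem per_sum {n : ℕ} (x : Fin n → ℝ) : ∑ a, bc x a = 1 := by
  rw [Fin.sum_univ_succ]; simp [bc]

theorem per_bcA {n : ℕ} (σ : Equiv.Perm (Fin (n + 1))) (x : Fin n → ℝ) (a : Fin (n + 1)) :
    bc (perA σ x) a = bc x (σ a) := by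
  refine Fin.cases ?_ (fun a => ?_) a
  · have h1 : ∑ a, bc x (σ a) = 1 := by
      rw [Equiv.sum_comp σ (fun a => bc x a)]; exact per_sum x
    rw [Fin.sum_univ_succ] at h1
    have h2 : bc (perA σ x) 0 = 1 - ∑ i : Fin n, bc x (σ i.succ) := by
      simp [bc, perA]
    rw [h2]; linarith
  · simp [bc, perA]

theorem per_bc_inj {n : ℕ} {x y : Fin n → ℝ} (h : ∀ a, bc x a = bc y a) : x = y := by
  ext i
  have := h i.succ
  simpa [bc] using this

theorem t_PER : S_PER := by
  intro n σ
  have hb : Function.Bijective (perA σ) := by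
    constructor
    · intro x y h
      refine per_bc_inj fun a => ?_
      have h1 := per_bcA σ x (σ.symm a)
      have h2 := per_bcA σ y (σ.symm a)
      rw [Equiv.apply_symm_apply] at h1 h2
      rw [← h1, ← h2, h]
    · intro y
      refine ⟨perA σ.symm y, per_bc_inj fun a => ?_⟩
      rw [per_bcA, per_bcA, Equiv.symm_apply_apply]
  refine ⟨AffineEquiv.ofBijective hb, fun d => ?_⟩
  have hA : ∀ x, (AffineEquiv.ofBijective hb) x = perA σ x := fun x => rfl
  ext y
  constructor
  · rintro ⟨x, ⟨s, hs, hx⟩, rfl⟩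
    refine ⟨s, hs, fun a => ?_⟩
    rw [hA, per_bcA]
    exact hx (σ a)
  · rintro ⟨s, hs, hy⟩
    obtain ⟨x, rfl⟩ := hb.2 y
    refine ⟨x, ⟨s, hs, fun a => ?_⟩, hA x⟩
    have := hy (σ.symm a)
    rw [per_bcA] at this
    simpa using this

end Pool.Agent.H91.NV
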